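import Pool.Agent.K1H2.UB.Stm3
import Pool.Agent.K1H2.BI.Final

/-!
# The final statement from the upper bound and the link
-/

set_option autoImplicit false

open scoped ENNReal
open MeasureTheory ProbabilityTheory Filter
open Pool.Agent.K1H53.BI (V CondH prob)
open Pool.Agent.K1H2.BI (Site Inst at' agg Crit Drawn)

namespace Pool.Agent.K1H2.UB

universe u

theorem crit_of_condH {ν : PMF ℕ} (h : CondH ν) : Crit ν := by
  have hfin : ∀ k, ν k ≠ ⊤ := fun k => ν.apply_ne_top k
  refine ⟨?_, ?_, ?_⟩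
  · have h1 : ∀ k : ℕ, ν k * (k : ℝ≥0∞) = ENNReal.ofReal ((ν k).toReal * (k : ℝ)) := by
      intro k
      rw [ENNReal.ofReal_mul ENNReal.toReal_nonneg, ENNReal.ofReal_toReal (hfin k),
        ENNReal.ofReal_natCast]
    simp_rw [h1]
    rw [← ENNReal.ofReal_tsum_of_nonneg (fun k => by positivity) h.mean.summable,
      h.mean.tsum_eq, ENNReal.ofReal_one]
  · obtain ⟨lam, hlam, hs⟩ := h.expo
    have h1 : ∀ k : ℕ, ν k * (k : ℝ≥0∞) ^ 2 = ENNReal.ofReal ((ν k).toReal * (k : ℝ) ^ 2) := by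
      intro k
      rw [ENNReal.ofReal_mul ENNReal.toReal_nonneg, ENNReal.ofReal_toReal (hfin k),
        ENNReal.ofReal_pow (by positivity), ENNReal.ofReal_natCast]
    simp_rw [h1]
    have h2 : Summable fun k : ℕ => (ν k).toReal * (k : ℝ) ^ 2 := by
      refine Summable.of_nonneg_of_le (fun k => by positivity) (fun k => ?_)
        (hs.mul_left (2 / lam ^ 2))
      have h3 := Real.quadratic_le_exp_of_nonneg (x := lam * k) (by positivity)
      have h4 : (k : ℝ) ^ 2 ≤ 2 / lam ^ 2 * Real.exp (lam * k) := by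
        rw [div_mul_eq_mul_div, le_div_iff₀ (by positivity)]
        have : 0 ≤ lam * (k : ℝ) := by positivity
        nlinarith
      calc (ν k).toReal * (k : ℝ) ^ 2 ≤ (ν k).toReal * (2 / lam ^ 2 * Real.exp (lam * k)) :=
            mul_le_mul_of_nonneg_left h4 ENNReal.toReal_nonneg
        _ = 2 / lam ^ 2 * ((ν k).toReal * Real.exp (lam * k)) := by ring
    rw [← ENNReal.ofReal_tsum_of_nonneg (fun k => by positivity) h2]
    exact ENNReal.ofReal_ne_top
  · intro h1
    have h2 : ν.support = {1} := (PMF.apply_eq_one_iff ν 1).1 h1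
    have h3 : ∀ k : ℕ, (ν k).toReal * ((k : ℝ) - 1) ^ 2 = 0 := by
      intro k
      by_cases hk : k = 1
      · subst hk; simp
      · have : ν k = 0 := by
          by_contra hne
          have hm : k ∈ ν.support := (PMF.mem_support_iff ν k).2 hne
          rw [h2] at hm
          exact hk hm
        rw [this]; simp
    have h4 := h.var
    simp_rw [h3] at h4
    simp at h4

theorem len_eq_nrm (x : V) : Pool.Agent.K1H2.BI.len x = Pool.Agent.K1H53.BI.nrm x := by
  unfold Pool.Agent.K1H2.BI.len Pool.Agent.K1H53.BI.nrm Pool.Agent.K1H53.BI.nsq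
  congr 1
  push_cast
  refine Finset.sum_congr rfl fun i _ => ?_
  rw [Nat.cast_natAbs]
  push_cast
  rw [sq_abs]

theorem devI_eq (A : Finset V) (t : ℕ) :
    Pool.Agent.K1H2.BI.devI A t = Pool.Agent.K1H53.BI.devI t A := by
  unfold Pool.Agent.K1H2.BI.devI Pool.Agent.K1H53.BI.devI
  simp only [len_eq_nrm]
  rfl

theorem t_ASB : S_ASB.{u} := by
  intro hUB hL Ω _ P _ ν ins hc hd
  have hcr := crit_of_condH hc
  have key : ∀ ε : ℝ, 0 < ε → ∀ k : ℕ, ∃ T₀ : ℕ, ∀ t : ℕ, T₀ ≤ t →
      P {ω | Pool.Agent.K1H2.BI.rad t ^ ((1 : ℝ) / 2 + ε) ≤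
        Pool.Agent.K1H2.BI.devI (agg (at' ins ω) t) t} ≤ ENNReal.ofReal (1 / (t : ℝ) ^ k) := by
    intro ε hε k
    obtain ⟨T₀, hT⟩ := hUB ν hc ε hε k
    refine ⟨max T₀ 1, fun t ht => ?_⟩
    have h1 := hL Ω P ν ins hcr hd t
      (fun A => Pool.Agent.K1H53.BI.rad t ^ ((1 : ℝ) / 2 + ε) ≤ Pool.Agent.K1H53.BI.devI t A)
      (le_trans (le_max_right _ _) ht)
    have h2 := hT t (le_trans (le_max_left _ _) ht)
    simp only [devI_eq]
    exact h1.trans h2
  refine ⟨fun ε hε k => ?_, ?_⟩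
  · obtain ⟨T₀, hT⟩ := key ε hε k
    filter_upwards [eventually_ge_atTop T₀] with t ht
    exact ENNReal.toReal_le_of_le_ofReal (by positivity) (hT t ht)
  · have h1 : ∀ n : ℕ, ∀ᵐ ω ∂P, ∀ᶠ t : ℕ in atTop,
        Pool.Agent.K1H2.BI.devI (agg (at' ins ω) t) t <
          Pool.Agent.K1H2.BI.rad t ^ ((1 : ℝ) / 2 + 1 / ((n : ℝ) + 1)) := by
      intro n
      obtain ⟨T₀, hT⟩ := key (1 / ((n : ℝ) + 1)) (by positivity) 2
      let s : ℕ → Set Ω := fun t => if t < T₀ then ∅ else
        {ω | Pool.Agent.K1H2.BI.rad t ^ ((1 : ℝ) / 2 + 1 / ((n : ℝ) + 1)) ≤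
          Pool.Agent.K1H2.BI.devI (agg (at' ins ω) t) t}
      have hs : ∑' t, P (s t) ≠ ⊤ := by
        have hle : ∑' t, P (s t) ≤ ∑' t : ℕ, ENNReal.ofReal (1 / (t : ℝ) ^ 2) := by
          refine ENNReal.tsum_le_tsum fun t => ?_
          by_cases ht : t < T₀
          · simp [s, ht]
          · simp only [s, if_neg ht]
            exact hT t (not_lt.1 ht)
        refine ne_top_of_le_ne_top ?_ hle
        rw [← ENNReal.ofReal_tsum_of_nonneg (fun t => by positivity)
          (Real.summable_one_div_nat_pow.2 one_lt_two)]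
        exact ENNReal.ofReal_ne_top
      filter_upwards [ae_eventually_notMem hs] with ω hω
      filter_upwards [hω, eventually_ge_atTop T₀] with t ht1 ht2
      have : ¬ t < T₀ := not_lt.2 ht2
      simp only [s, if_neg this, Set.mem_setOf_eq, not_le] at ht1
      exact ht1
    have h2 := ae_all_iff.2 h1
    filter_upwards [h2] with ω hω ε hε
    obtain ⟨n, hn⟩ := exists_nat_one_div_lt hε
    filter_upwards [hω n, Pool.Agent.K1H2.BI.tendsto_rad.eventually_ge_atTop 1] with t ht1 ht2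
    refine ht1.trans_le (Real.rpow_le_rpow_of_exponent_le ht2 ?_)
    linarith

end Pool.Agent.K1H2.UB
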