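import Mathlib

/-!
# Limit superior of the ratio of the logarithms
-/

set_option autoImplicit false

open Filter

namespace Pool.Agent.K1H2.UB

theorem limsup_ratio {d r : ℕ → ℝ} (hd : ∀ t, 0 ≤ d t) (hr : Tendsto r atTop atTop)
    (h1 : ∀ ε : ℝ, 0 < ε → ∀ᶠ t : ℕ in atTop, d t < r t ^ ((1 : ℝ) / 2 + ε))
    (h2 : ∀ K : ℝ, ∃ᶠ t : ℕ in atTop, K * Real.sqrt (r t) ≤ d t) :
    limsup (fun t => Real.log (d t) / Real.log (r t)) atTop = 1 / 2 := by
  have hup : ∀ ε : ℝ, 0 < ε → ∀ᶠ t : ℕ in atTop,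
      Real.log (d t) / Real.log (r t) ≤ 1 / 2 + ε := by
    intro ε hε
    filter_upwards [h1 ε hε, hr.eventually_gt_atTop 1] with t ht1 ht2
    have hl : 0 < Real.log (r t) := Real.log_pos ht2
    rw [div_le_iff₀ hl]
    rcases (hd t).eq_or_lt with h0 | h0
    · rw [← h0, Real.log_zero]
      positivity
    · rw [← Real.log_rpow (by linarith)]
      exact Real.log_le_log h0 ht1.le
  have hlo : ∃ᶠ t : ℕ in atTop, 1 / 2 ≤ Real.log (d t) / Real.log (r t) := by
    refine ((h2 1).and_eventually (hr.eventually_gt_atTop 1)).mono fun t ht => ?_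
    obtain ⟨ht1, ht2⟩ := ht
    have hl : 0 < Real.log (r t) := Real.log_pos ht2
    rw [le_div_iff₀ hl]
    have hs : 0 < Real.sqrt (r t) := Real.sqrt_pos.2 (by linarith)
    have h3 : Real.log (Real.sqrt (r t)) ≤ Real.log (d t) :=
      Real.log_le_log hs (by linarith)
    rw [Real.log_sqrt (by linarith)] at h3
    linarith
  have hbdd : IsBoundedUnder (· ≤ ·) atTop fun t => Real.log (d t) / Real.log (r t) :=
    isBoundedUnder_of_eventually_le (hup 1 one_pos)
  apply le_antisymm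
  · refine le_of_forall_pos_le_add fun ε hε => ?_
    refine limsup_le_of_le ?_ (hup ε hε)
    exact IsCoboundedUnder.of_frequently_ge hlo
  · exact le_limsup_of_frequently_le hlo hbdd

end Pool.Agent.K1H2.UB
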