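import Pool.Agent.K1H2.UB.Stm4
import Pool.Agent.K1H2.UB.Asb
import Pool.Agent.K1H2.UB.Lim

/-!
# The final statement from the upper bound and the link, sharper form
-/

set_option autoImplicit false

open scoped ENNReal
open MeasureTheory ProbabilityTheory Filter
open Pool.Agent.K1H53.BI (V CondH prob)
open Pool.Agent.K1H2.BI (Site Inst at' agg Crit Drawn)

namespace Pool.Agent.K1H2.UB

universe u

theorem t_ASB2 (hUB : S_UB2) (hL : C_LNK.{u}) : C_ASB2.{u} := by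
  intro Ω _ P _ ν ins hc hd
  have hcr := crit_of_condH hc
  have key : ∀ k : ℕ, ∃ (C : ℝ) (T₀ : ℕ), 0 < C ∧ ∀ t : ℕ, T₀ ≤ t →
      P {ω | C * Real.sqrt (Pool.Agent.K1H2.BI.rad t) * Real.log (Pool.Agent.K1H2.BI.rad t) ≤
        Pool.Agent.K1H2.BI.devI (agg (at' ins ω) t) t} ≤ ENNReal.ofReal (1 / (t : ℝ) ^ k) := by
    intro k
    obtain ⟨C, T₀, hC, hT⟩ := hUB ν hc k
    refine ⟨C, max T₀ 1, hC, fun t ht => ?_⟩
    have h1 := hL Ω P ν ins hcr hd t
      (fun A => C * Real.sqrt (Pool.Agent.K1H53.BI.rad t) *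
        Real.log (Pool.Agent.K1H53.BI.rad t) ≤ Pool.Agent.K1H53.BI.devI t A)
      (le_trans (le_max_right _ _) ht)
    have h2 := hT t (le_trans (le_max_left _ _) ht)
    simp only [devI_eq]
    exact h1.trans h2
  refine ⟨fun k => ?_, ?_⟩
  · obtain ⟨C, T₀, hC, hT⟩ := key k
    refine ⟨C, hC, ?_⟩
    filter_upwards [eventually_ge_atTop T₀] with t ht
    exact ENNReal.toReal_le_of_le_ofReal (by positivity) (hT t ht)
  · obtain ⟨C, T₀, hC, hT⟩ := key 2
    refine ⟨C, hC, ?_⟩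
    let s : ℕ → Set Ω := fun t => if t < T₀ then ∅ else
      {ω | C * Real.sqrt (Pool.Agent.K1H2.BI.rad t) * Real.log (Pool.Agent.K1H2.BI.rad t) ≤
        Pool.Agent.K1H2.BI.devI (agg (at' ins ω) t) t}
    have hs : ∑' t, P (s t) ≠ ⊤ := by
      have hle : ∑' t, P (s t) ≤ ∑' t : ℕ, ENNReal.ofReal (1 / (t : ℝ) ^ 2) := by
        refine ENNReal.tsum_le_tsum fun t => ?_
        by_cases ht : t < T₀
        · simp [s, ht]
        · simp only [s, if_neg ht]
          exact hT t (not_lt.1 ht)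
      refine ne_top_of_le_ne_top ?_ hle
      rw [← ENNReal.ofReal_tsum_of_nonneg (fun t => by positivity)
        (Real.summable_one_div_nat_pow.2 one_lt_two)]
      exact ENNReal.ofReal_ne_top
    filter_upwards [ae_eventually_notMem hs] with ω hω
    filter_upwards [hω, eventually_ge_atTop T₀] with t ht1 ht2
    have : ¬ t < T₀ := not_lt.2 ht2
    simp only [s, if_neg this] at ht1
    exact (not_le.1 ht1).le

/-- `C * sqrt r * log r` is smaller than `r ^ (1/2 + ε)`. -/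
theorem ev_lt {r : ℕ → ℝ} (hr : Tendsto r atTop atTop) (C ε : ℝ) (hε : 0 < ε) :
    ∀ᶠ t : ℕ in atTop, C * Real.sqrt (r t) * Real.log (r t) < r t ^ ((1 : ℝ) / 2 + ε) := by
  have h1 : ∀ᶠ x : ℝ in atTop, C * Real.sqrt x * Real.log x < x ^ ((1 : ℝ) / 2 + ε) := by
    have h2 := (isLittleO_log_rpow_atTop hε).bound (c := 1 / (2 * (|C| + 1))) (by positivity)
    filter_upwards [h2, eventually_ge_atTop 1] with x hx hx1
    have hx0 : 0 < x := by linarith
    have hl : 0 ≤ Real.log x := Real.log_nonneg hx1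
    have hp : 0 < x ^ ε := Real.rpow_pos_of_pos hx0 _
    rw [Real.norm_of_nonneg hl, Real.norm_of_nonneg hp.le] at hx
    rw [Real.rpow_add hx0, ← Real.sqrt_eq_rpow]
    have hs : 0 < Real.sqrt x := Real.sqrt_pos.2 hx0
    have h3 : C * Real.log x < x ^ ε := by
      have h4 : |C| * Real.log x ≤ |C| * (1 / (2 * (|C| + 1)) * x ^ ε) :=
        mul_le_mul_of_nonneg_left hx (abs_nonneg _)
      have h5 : |C| * (1 / (2 * (|C| + 1))) ≤ 1 / 2 := by
        rw [mul_one_div, div_le_div_iff₀ (by positivity) (by norm_num)]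
        nlinarith [abs_nonneg C]
      have h6 : C * Real.log x ≤ |C| * Real.log x :=
        mul_le_mul_of_nonneg_right (le_abs_self C) hl
      nlinarith
    calc C * Real.sqrt x * Real.log x = Real.sqrt x * (C * Real.log x) := by ring
      _ < Real.sqrt x * x ^ ε := mul_lt_mul_of_pos_left h3 hs
  exact hr.eventually h1

theorem devI_nonneg (A : Finset Site) (t : ℕ) : 0 ≤ Pool.Agent.K1H2.BI.devI A t :=
  Real.sInf_nonneg fun _ h => h.1

/-- The final theorem, from the upper bound, the link and the lower bound. -/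
theorem final_of (hUB : S_UB2) (hL : C_LNK.{u})
    {Ω : Type u} [MeasurableSpace Ω] (P : Measure Ω) [IsProbabilityMeasure P]
    (ν : PMF ℕ) (hν : CondH ν) (ins : ℕ → Ω → Inst) (hins : Drawn P ν ins)
    (hlow : ∀ᵐ ω ∂P, ∀ K : ℝ, ∃ᶠ t : ℕ in atTop, K * Real.sqrt (Pool.Agent.K1H2.BI.rad t) ≤
      Pool.Agent.K1H2.BI.devI (agg (at' ins ω) t) t) :
    (∀ k : ℕ, ∃ C : ℝ, 0 < C ∧ ∀ᶠ t : ℕ in atTop,
      P.real {ω | C * Real.sqrt (Pool.Agent.K1H2.BI.rad t) * Real.log (Pool.Agent.K1H2.BI.rad t) ≤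
        Pool.Agent.K1H2.BI.devI (agg (at' ins ω) t) t} ≤ 1 / (t : ℝ) ^ k) ∧
    (∃ C : ℝ, 0 < C ∧ ∀ᵐ ω ∂P, ∀ᶠ t : ℕ in atTop,
      Pool.Agent.K1H2.BI.devI (agg (at' ins ω) t) t ≤
        C * Real.sqrt (Pool.Agent.K1H2.BI.rad t) * Real.log (Pool.Agent.K1H2.BI.rad t)) ∧
    ∀ᵐ ω ∂P, limsup (fun t => Real.log (Pool.Agent.K1H2.BI.devI (agg (at' ins ω) t) t) /
      Real.log (Pool.Agent.K1H2.BI.rad t)) atTop = 1 / 2 := by
  obtain ⟨h1, C, hC, h2⟩ := t_ASB2 hUB hL Ω P ν ins hν hins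
  refine ⟨h1, ⟨C, hC, h2⟩, ?_⟩
  filter_upwards [h2, hlow] with ω hω hK
  refine limsup_ratio (fun t => devI_nonneg _ t) Pool.Agent.K1H2.BI.tendsto_rad (fun ε hε => ?_) hK
  filter_upwards [hω, ev_lt Pool.Agent.K1H2.BI.tendsto_rad C ε hε] with t ht1 ht2
  exact ht1.trans_lt ht2

end Pool.Agent.K1H2.UB
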