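import Pool.Agent.K1H2.UB.Stm

/-!
# The two regimes together
-/

set_option autoImplicit false

open scoped ENNReal
open Finset Pool.Agent.K1H53.BI

namespace Pool.Agent.K1H2.UB

theorem Adm.mono {C C' : ℝ} {N : ℕ} {z : V} {u : V → ℝ} (h : Adm C N z u) (hC : 1 ≤ C)
    (hCC : C ≤ C') (hN : 0 < N) (hz : 0 ≤ (N : ℝ) - nrm z) : Adm C' N z u := by
  have hNr : (0 : ℝ) < N := by exact_mod_cast hN
  have hu0 : 0 ≤ u 0 := le_trans (by positivity) h.low
  refine ⟨h.le_one, h.out, h.sub, ?_, ?_, h.low⟩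
  · intro x hx hux e'
    obtain ⟨e, he⟩ := h.grad x hx hux e'
    refine ⟨e, he.trans ?_⟩
    gcongr
  · have h1 : (N - nrm z) ^ 2 / C' ≤ (N - nrm z) ^ 2 / C := by gcongr
    have h2 : 4 * Real.pi / 3 * N ^ 3 * u 0 * (1 - (N - nrm z) / (C * N)) ≤
        4 * Real.pi / 3 * N ^ 3 * u 0 * (1 - (N - nrm z) / (C' * N)) := by
      gcongr
    have h3 := h.tot
    linarith

theorem reg_of (h1 : C_R1) (h2 : C_R2) : C_REG := by
  obtain ⟨C1, hC1, H1⟩ := h1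
  obtain ⟨C2, hC2, H2⟩ := h2
  refine ⟨max C1 C2, le_trans hC1 (le_max_left _ _), ?_⟩
  intro N z hN hz hd
  have hN1 : (1 : ℝ) ≤ N := le_trans hC1 (le_trans (le_max_left _ _) hN)
  have hN0 : 0 < N := by
    have : (0 : ℝ) < N := by linarith
    exact_mod_cast this
  have hsq : 0 ≤ Real.sqrt (N : ℝ) := Real.sqrt_nonneg _
  have hpos : 0 ≤ (N : ℝ) - nrm z :=
    le_trans (mul_nonneg (le_trans (by linarith) (le_max_left C1 C2)) hsq) hd
  by_cases hr : (N : ℝ) / 4 ≤ nrm z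
  · obtain ⟨u, hu⟩ := H1 N z (le_trans (le_max_left _ _) hN) hr
      (le_trans (mul_le_mul_of_nonneg_right (le_max_left _ _) hsq) hd)
    exact ⟨u, hu.mono hC1 (le_max_left _ _) hN0 hpos⟩
  · obtain ⟨u, hu⟩ := H2 N z (le_trans (le_max_right _ _) hN) hz (not_le.1 hr)
    exact ⟨u, hu.mono hC2 (le_max_right _ _) hN0 hpos⟩

end Pool.Agent.K1H2.UB
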