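import Pool.Agent.K1H2.UB.Stm2
import Pool.Agent.K1H2.UB.Reg
import Pool.Agent.K1H2.UB.Asb
import Pool.Agent.K1H2.UB.Lim
import Pool.Agent.K1H2.BI.Pieces
import Pool.Agent.K1H97.UB.Llo
import Pool.Agent.K1H29.UB.Near
import Pool.Agent.K1H74.UB.KCH
import Pool.Agent.K1H24.UB.Lnk
import Pool.Agent.K1H96.UB.SUP
import Pool.Agent.K1H68.UB.Crit
import Pool.Agent.K1H6.UB.PSI
import Pool.Agent.K1H25.UB.PT
import Pool.Agent.K1H26.UB.Fin
import Pool.Agent.K1H13.UB.LHI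
import Pool.Agent.K1H89.UB.SHELL
import Pool.Agent.K1H98.UB.R2
import Pool.Agent.K1H18.UB.Geo
import Pool.Agent.K1H94.UB.CMP
import Pool.Agent.K1H9.UB.Out
import Pool.Agent.K1H11.UB.Grv
import Pool.Agent.K1H21.UB.TAY
import Pool.Agent.K1H27.UB.FAR
import Pool.Agent.K1H74.UB.CUBE
import Pool.Agent.K1H42.UB.Newt
import Pool.Agent.K1H92.UB.Csum
import Pool.Agent.K1H52.UB.INT
import Pool.Agent.K1H33.UB.R1
import Pool.Agent.K1H53.BI.Main2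
import Pool.Agent.K1H2.UB.Asb2
import Pool.Agent.K1H89.UB.GF
import Pool.Agent.K1H52.UB.KER
import Pool.Agent.K1H89.UB.Fin2
import Pool.Agent.K1H72.UB.HRM

/-!
# Assembly
-/

set_option autoImplicit false

namespace Pool.Agent.K1H2.UB

universe u

theorem p_cmp : C_CMP := K1H94.UB.t_CMP K1H18.UB.t_GEO

theorem p_near : C_NEAR := K1H29.UB.t_NEAR K1H18.UB.t_GEO p_cmp

theorem p_far : C_FAR := K1H27.UB.t_FAR K1H18.UB.t_GEO p_cmp K1H11.UB.t_GRV K1H21.UB.t_TAY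

theorem p_out : C_OUT := K1H9.UB.t_OUT K1H18.UB.t_GEO

theorem p_int : C_INT :=
  K1H52.UB.t_INT K1H18.UB.t_GEO K1H89.UB.t_SHELL K1H74.UB.t_CUBE
    (K1H92.UB.t_CSUM K1H18.UB.t_GEO (K1H42.UB.t_NEWT K1H18.UB.t_GEO))

theorem p_ker : C_KER := K1H52.UB.KER.t_KER K1H97.UB.t_LLO

theorem p_r1 : C_R1 :=
  K1H33.UB.t_R1 p_ker K1H13.UB.t_LHI K1H89.UB.t_SHELL K1H18.UB.t_GEO p_cmp p_out p_near p_far p_int

theorem p_r2 : C_R2 := K1H98.UB.t_R2 p_ker K1H89.UB.t_SHELL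

theorem p_reg : C_REG := reg_of p_r1 p_r2

theorem p_crit : C_CRIT :=
  K1H68.UB.t_CRIT K1H89.UB.t_GF K1H96.UB.t_SUP K1H99.BI.t_OFF K1H53.BI.c_abf K1H53.BI.c_termf
    K1H53.BI.c_invf

/-- The bound for one site. -/
theorem p_pt : C_PT := K1H25.UB.t_PT p_crit K1H6.UB.t_PSI p_reg

/-- The upper bound in the other description of the process. -/
theorem p_ub2 : S_UB2 := K1H89.UB.t_FIN2 p_pt K1H74.BI.t_INV

theorem p_hrm : C_HRM := K1H72.UB.t_HRM K1H74.UB.t_KCH K1H53.BI.c_abel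

/-- The two descriptions of the process. -/
theorem p_lnk : C_LNK.{u} :=
  K1H24.UB.t_LNK p_hrm K1H53.BI.c_abel BI.p_LYA BI.p_TRAJ BI.p_FRZ BI.p_MEAS BI.p_INNER

end Pool.Agent.K1H2.UB
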