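import Pool.Agent.K1H53.BI.Plan2

/-!
# Branching internal DLA in dimension three: sharp upper bound for the inner deviation
(definitions and pieces)
-/

set_option autoImplicit false

open scoped ENNReal
open Finset Pool.Agent.K1H53.BI

namespace Pool.Agent.K1H2.UB

/-- Average over the six neighbours. -/
noncomputable def PP (f : V → ℝ) (x : V) : ℝ := (∑ e : Fin 3 × Bool, f (x + dir e)) / 6

/-- Lattice points of the closed ball of radius `N`. -/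
noncomputable def ballF (N : ℕ) : Finset V :=
  (Fintype.piFinset fun _ : Fin 3 => Finset.Icc (-(N : ℤ)) (N : ℤ)).filter
    fun y => nsq y ≤ N ^ 2

/-- Squared norm of a real vector. -/
noncomputable def q (w : Fin 3 → ℝ) : ℝ := ∑ i, w i ^ 2

/-- Euclidean norm of a real vector. -/
noncomputable def len (w : Fin 3 → ℝ) : ℝ := Real.sqrt (q w)

/-- A lattice point as a real vector. -/
def rv (x : V) : Fin 3 → ℝ := fun i => (x i : ℝ)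

/-- A direction as a real vector. -/
noncomputable def rd (e : Fin 3 × Bool) : Fin 3 → ℝ := Pi.single e.1 (if e.2 then 1 else -1)

/-! ## The process -/

/-- **Piece GF.** The generating function of the offspring law. -/
def S_GF : Prop :=
  ∀ ν : PMF ℕ, CondH ν → ∃ C1 : ℝ, 1 ≤ C1 ∧ ∀ b : Fin 3 × Bool → ℝ, (∀ e, 0 ≤ b e) →
    Ex ν (fun k => (ENNReal.ofReal ((∑ e, Real.exp (-b e)) / 6)) ^ k) ≤
      ENNReal.ofReal (1 - (∑ e, b e) / 6 + C1 * (∑ e, b e ^ 2) / 6)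

open Classical in
/-- The exponential supermartingale. -/
noncomputable def WW (z : V) (b : V → ℝ) (s : St) : ℝ≥0∞ :=
  if z ∈ s.A then 0 else
    ENNReal.ofReal (Real.exp (-(∑ y ∈ s.A, b y + (s.L.map b).sum + s.m * b 0)))

/-- Conclusion of the piece SUP. -/
def C_SUP : Prop :=
  ∀ (ν : PMF ℕ) (C1 : ℝ), (∀ b : Fin 3 × Bool → ℝ, (∀ e, 0 ≤ b e) →
      Ex ν (fun k => (ENNReal.ofReal ((∑ e, Real.exp (-b e)) / 6)) ^ k) ≤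
        ENNReal.ofReal (1 - (∑ e, b e) / 6 + C1 * (∑ e, b e ^ 2) / 6)) →
    ∀ (N : ℕ) (z : V) (b : V → ℝ), (∀ x, 0 ≤ b x) →
      (∀ x, x ≠ z → b x + C1 * PP (fun y => b y ^ 2) x ≤ PP b x) →
      ∀ s : St, (∀ x ∈ s.L, x ∈ s.A) → Ex (stepF ν N s) (WW z b) ≤ WW z b s

/-- The criterion: an upper bound for the probability that `z` does not belong to the
aggregate. -/
def C_CRIT : Prop :=
  ∀ ν : PMF ℕ, CondH ν → ∃ C1 : ℝ, 1 ≤ C1 ∧ ∀ (N T : ℕ) (z : V) (b : V → ℝ), 1 ≤ T → z ≠ 0 →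
    (∀ x, 0 ≤ b x) → (∀ x, N ^ 2 < nsq x → b x = 0) →
    (∀ x, x ≠ z → b x + C1 * PP (fun y => b y ^ 2) x ≤ PP b x) →
    prob ν T (fun A => z ∉ A) ≤
      ENNReal.ofReal (Real.exp (-(T * b 0) + ∑ y ∈ (ballF N).erase z, b y))

/-- **Piece CRIT.** -/
def S_CRIT : Prop :=
  S_GF → C_SUP → S_OFF → C_ABF → C_TERMF → S_INVF → C_CRIT

/-- The convex function. -/
noncomputable def Psi (lam kap u : ℝ) : ℝ :=
  if 0 < u then lam * max (u - kap * (u * (1 - Real.log u))) 0 else 0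

/-- **Piece PSI.** -/
def S_PSI : Prop :=
  ∀ C1 C : ℝ, 1 ≤ C1 → 1 ≤ C → ∃ K : ℝ, 1 ≤ K ∧
    ∀ (lam del u0 : ℝ) (Y : Fin 3 × Bool → ℝ), 0 < lam → lam ≤ 1 / K → 0 < del →
      u0 ≤ 1 → (∀ e, Y e ≤ 1) → (0 < u0 → u0 ≤ (∑ e, Y e) / 6) →
      (0 < u0 → ∀ e', ∃ e, Y e' ^ 3 ≤ C * del * (Y e - u0) ^ 2) →
      Psi lam (lam * K * del) u0 + C1 * ((∑ e, Psi lam (lam * K * del) (Y e) ^ 2) / 6) ≤
        (∑ e, Psi lam (lam * K * del) (Y e)) / 6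

/-- Admissible functions. -/
structure Adm (C : ℝ) (N : ℕ) (z : V) (u : V → ℝ) : Prop where
  le_one : ∀ x, u x ≤ 1
  out : ∀ x, N ^ 2 < nsq x → u x ≤ 0
  sub : ∀ x, x ≠ z → 0 < u x → u x ≤ PP u x
  grad : ∀ x, x ≠ z → 0 < u x → ∀ e', ∃ e,
    u (x + dir e') ^ 3 ≤ C * (N - nrm z) * (u (x + dir e) - u x) ^ 2
  tot : ∑ y ∈ (ballF N).erase z, max (u y) 0 + (N - nrm z) ^ 2 / C ≤
    4 * Real.pi / 3 * N ^ 3 * u 0 * (1 - (N - nrm z) / (C * N))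
  low : 1 / (N : ℝ) ^ 2 ≤ u 0

/-- Existence of admissible functions (in the two regimes). -/
def C_R1 : Prop :=
  ∃ C : ℝ, 1 ≤ C ∧ ∀ (N : ℕ) (z : V), C ≤ N → (N : ℝ) / 4 ≤ nrm z →
    C * Real.sqrt N ≤ (N : ℝ) - nrm z → ∃ u : V → ℝ, Adm C N z u

/-- Second regime. -/
def C_R2 : Prop :=
  ∃ C : ℝ, 1 ≤ C ∧ ∀ (N : ℕ) (z : V), C ≤ N → z ≠ 0 → nrm z < (N : ℝ) / 4 →
    ∃ u : V → ℝ, Adm C N z u

/-- Both regimes. -/
def C_REG : Prop :=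
  ∃ C : ℝ, 1 ≤ C ∧ ∀ (N : ℕ) (z : V), C ≤ N → z ≠ 0 →
    C * Real.sqrt N ≤ (N : ℝ) - nrm z → ∃ u : V → ℝ, Adm C N z u

/-- Upper bound for one site. -/
def C_PT : Prop :=
  ∀ ν : PMF ℕ, CondH ν → ∃ (c : ℝ) (N₀ : ℕ), 0 < c ∧ ∀ (T N : ℕ) (z : V), N₀ ≤ N →
    (N : ℝ) ≤ rad T → z ≠ 0 → Real.sqrt N / c ≤ (N : ℝ) - nrm z →
    prob ν T (fun A => z ∉ A) ≤
      ENNReal.ofReal (Real.exp (-(c * ((N : ℝ) - nrm z) ^ 2 / ((N : ℝ) * Real.log N))))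

/-- **Piece PT.** -/
def S_PT : Prop := C_CRIT → S_PSI → C_REG → C_PT

/-- The main theorem. -/
def S_UB : Prop :=
  ∀ ν : PMF ℕ, CondH ν → ∀ ε : ℝ, 0 < ε → ∀ k : ℕ, ∃ T₀ : ℕ, ∀ T : ℕ, T₀ ≤ T →
    prob ν T (fun A => rad T ^ ((1 : ℝ) / 2 + ε) ≤ devI T A) ≤ ENNReal.ofReal (1 / (T : ℝ) ^ k)

/-- **Piece FIN.** -/
def S_FIN : Prop := C_PT → S_INV → S_UB

/-! ## The kernel -/

/-- Properties of the kernel. -/
structure Ker (C : ℝ) (k : V → ℝ) : Prop where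
  nonneg : ∀ x, 0 ≤ k x
  le : ∀ x, k x ≤ C
  sub : ∀ x, x ≠ 0 → k x ≤ PP k x
  low : ∀ x, x ≠ 0 → 1 / nrm x ≤ k x
  upp : ∀ x, x ≠ 0 → k x ≤ 1 / nrm x + C / nrm x ^ 3
  inc : ∀ x, x ≠ 0 → ∃ e, 1 / (C * nrm x ^ 2) ≤ k (x + dir e) - k x

/-- **Piece LLO.** -/
def S_LLO : Prop :=
  ∀ x : V, 9 ≤ nsq x →
    1 / Real.sqrt ((nsq x : ℝ) - 2) ≤ PP (fun y => 1 / Real.sqrt ((nsq y : ℝ) - 2)) x

/-- **Piece LHI.** -/
def S_LHI : Prop :=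
  ∀ w : Fin 3 → ℝ, (∑ e : Fin 3 × Bool, 1 / Real.sqrt (q (w + rd e) + 3)) / 6 ≤
    1 / Real.sqrt (q w + 3)

/-- Conclusion of the piece KER. -/
def C_KER : Prop := ∃ (C : ℝ) (k : V → ℝ), 1 ≤ C ∧ Ker C k

/-- **Piece KER.** -/
def S_KER : Prop := S_LLO → C_KER

/-- **Piece SHELL.** -/
def S_SHELL : Prop :=
  ∀ (M : ℕ) (D : Finset V), (∀ w ∈ D, w ≠ 0 ∧ ∀ i, |w i| ≤ (M : ℤ)) →
    (∑ w ∈ D, 1 / nrm w) ≤ 13 * (M : ℝ) * (M + 1) ∧ (∑ w ∈ D, 1 / nrm w ^ 3) ≤ 26 * (M : ℝ)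

/-- **Piece R2.** -/
def S_R2 : Prop := C_KER → S_SHELL → C_R2

/-! ## The first regime -/

/-- Distance to the sphere. -/
noncomputable def dl (N : ℕ) (z : V) : ℝ := N - nrm z

/-- Radius of the zero sphere. -/
noncomputable def rho (N : ℕ) (z : V) : ℝ := N - dl N z / 10

/-- Weight of the image charge. -/
noncomputable def kap (N : ℕ) (z : V) : ℝ := rho N z / nrm z

/-- Position of the image charge. -/
noncomputable def zs (N : ℕ) (z : V) : Fin 3 → ℝ := fun i => kap N z ^ 2 * z i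

/-- Green function of the ball of radius `rho` (up to a factor). -/
noncomputable def vv (N : ℕ) (z : V) (w : Fin 3 → ℝ) : ℝ :=
  1 / len (w - rv z) - kap N z / len (w - zs N z)

/-- Lattice version. -/
noncomputable def UU (k : V → ℝ) (N : ℕ) (z y : V) : ℝ :=
  k (y - z) - kap N z / Real.sqrt (q (rv y - zs N z) + 3)

/-- The first regime. -/
structure Reg (D : ℝ) (N : ℕ) (z : V) : Prop where
  far : (N : ℝ) / 4 ≤ nrm z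
  big : D ≤ dl N z

/-- **Piece GEO.** -/
def S_GEO : Prop :=
  ∀ (N : ℕ) (z : V), Reg 10 N z →
    1 ≤ kap N z ∧ kap N z ≤ 4 ∧ dl N z ≤ len (rv z - zs N z) ∧
    len (rv z - zs N z) ≤ 8 * dl N z ∧
    (∀ w : Fin 3 → ℝ, kap N z ^ 2 * q (w - rv z) - q (w - zs N z) =
      (kap N z ^ 2 - 1) * (q w - rho N z ^ 2)) ∧
    (∀ w : Fin 3 → ℝ, len w ≤ N + 1 → dl N z / 2 ≤ len (w - zs N z) ∧
      len (w - rv z) ≤ 20 * len (w - zs N z)) ∧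
    len (zs N z) = rho N z ^ 2 / nrm z

/-- Conclusion of the piece CMP. -/
def C_CMP : Prop :=
  ∀ (C : ℝ) (k : V → ℝ), 1 ≤ C → Ker C k → ∃ C' : ℝ, 1 ≤ C' ∧ ∀ (N : ℕ) (z : V), Reg C' N z →
    ∀ y : V, y ≠ z → nrm y ≤ N + 1 →
      |UU k N z y - vv N z (rv y)| ≤ C' / nrm (y - z) ^ 3 ∧
      UU k N z y ≤ C' * dl N z / nrm (y - z) ^ 2 ∧ UU k N z y ≤ C' / nrm (y - z)

/-- **Piece CMP.** -/
def S_CMP : Prop := S_GEO → C_CMP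

/-- Conclusion of the piece OUT. -/
def C_OUT : Prop :=
  ∀ (C : ℝ) (k : V → ℝ), 1 ≤ C → Ker C k → ∃ D : ℝ, 1 ≤ D ∧ ∀ (N : ℕ) (z : V), Reg D N z →
    ∀ y : V, N ^ 2 < nsq y → UU k N z y ≤ 0

/-- **Piece OUT.** -/
def S_OUT : Prop := S_GEO → C_OUT

/-- Conclusion of the piece NEAR. -/
def C_NEAR : Prop :=
  ∀ (C : ℝ) (k : V → ℝ), 1 ≤ C → Ker C k → ∃ c1 C' : ℝ, 0 < c1 ∧ c1 ≤ 1 ∧ 1 ≤ C' ∧
    ∀ (N : ℕ) (z : V), Reg C' N z → ∀ x : V, x ≠ z → nrm x ≤ N → nrm (x - z) ≤ c1 * dl N z →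
      ∀ e', ∃ e, UU k N z (x + dir e') ^ 3 ≤ C' * dl N z * (UU k N z (x + dir e) - UU k N z x) ^ 2

/-- **Piece NEAR.** -/
def S_NEAR : Prop := S_GEO → C_CMP → C_NEAR

/-- **Piece GRV.** The gradient of the Green function. -/
def S_GRV : Prop :=
  ∀ C c1 : ℝ, 1 ≤ C → 0 < c1 → ∃ c D : ℝ, 0 < c ∧ 1 ≤ D ∧
    ∀ (W W' : Fin 3 → ℝ) (κ δ : ℝ), 1 ≤ κ → κ ≤ 4 → D ≤ δ → δ ≤ len (W - W') →
      len (W - W') ≤ 8 * δ →
      c1 * δ ≤ len W → len W ≤ 20 * len W' → -(C / len W ^ 3) ≤ 1 / len W - κ / len W' →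
      c * δ ^ 2 / len W ^ 6 ≤ ∑ i, (κ * W' i / len W' ^ 3 - W i / len W ^ 3) ^ 2

/-- **Piece TAY.** -/
def S_TAY : Prop :=
  ∃ C : ℝ, 1 ≤ C ∧ ∀ (w : Fin 3 → ℝ) (e : Fin 3 × Bool), 2 ≤ len w →
    |1 / len (w + rd e) - 1 / len w + (if e.2 then 1 else -1) * w e.1 / len w ^ 3| ≤
      C / len w ^ 3

/-- Conclusion of the piece FAR. -/
def C_FAR : Prop :=
  ∀ (C : ℝ) (k : V → ℝ) (c1 : ℝ), 1 ≤ C → Ker C k → 0 < c1 → ∃ C' : ℝ, 1 ≤ C' ∧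
    ∀ (N : ℕ) (z : V), Reg C' N z → ∀ x : V, x ≠ z → nrm x ≤ N → c1 * dl N z ≤ nrm (x - z) →
      0 < UU k N z x →
      ∀ e', ∃ e, UU k N z (x + dir e') ^ 3 ≤ C' * dl N z * (UU k N z (x + dir e) - UU k N z x) ^ 2

/-- **Piece FAR.** -/
def S_FAR : Prop := S_GEO → C_CMP → S_GRV → S_TAY → C_FAR

/-- Conclusion of the piece INT. -/
def C_INT : Prop :=
  ∃ C : ℝ, 1 ≤ C ∧ ∀ (N : ℕ) (z : V), Reg C N z →
    ∑ y ∈ (ballF N).erase z, max (vv N z (rv y)) 0 ≤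
      2 * Real.pi / 3 * (rho N z ^ 2 - nrm z ^ 2) + C * N

/-- **Piece R1.** -/
def S_R1 : Prop :=
  C_KER → S_LHI → S_SHELL → S_GEO → C_CMP → C_OUT → C_NEAR → C_FAR → C_INT → C_R1

end Pool.Agent.K1H2.UB
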