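import Pool.Agent.K1H2.UB.Stm
import Pool.Agent.H283R3.Newt3

/-!
# Comparison of the lattice sum with Newton's integral (pieces)
-/

set_option autoImplicit false

open scoped ENNReal
open Finset MeasureTheory Pool.Agent.K1H53.BI Pool.Agent.H283R3.Newt

namespace Pool.Agent.K1H2.UB

/-- A real vector as a point of the Euclidean space. -/
noncomputable def pt (w : Fin 3 → ℝ) : E3 := WithLp.toLp 2 w

/-- The unit cube around a lattice point. -/
def cube (y : V) : Set E3 := {p | ∀ i, |p i - y i| < 1 / 2}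

/-- **Piece CUBE.** The mean of the Newton kernel over a unit cube. -/
def S_CUBE : Prop :=
  ∃ C : ℝ, 1 ≤ C ∧ ∀ (y : V) (p : Fin 3 → ℝ), 3 ≤ len (rv y - p) →
    IntegrableOn (fun x => (dist (pt p) x)⁻¹) (cube y) ∧
    |(∫ x in cube y, (dist (pt p) x)⁻¹) - 1 / len (rv y - p)| ≤ C / len (rv y - p) ^ 3

/-- The Green function of the ball on the Euclidean space. -/
noncomputable def gv (N : ℕ) (z : V) (x : E3) : ℝ :=
  (dist (pt (rv z)) x)⁻¹ - kap N z * (dist (pt (zs N z)) x)⁻¹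

/-- The integral of the Green function over the ball. -/
def C_NEWT : Prop :=
  ∀ (N : ℕ) (z : V), Reg 10 N z →
    (∀ x : E3, x ≠ pt (rv z) → x ∈ Metric.ball (0 : E3) (rho N z) → 0 ≤ gv N z x) ∧
    (∀ x : E3, x ≠ pt (zs N z) → x ∉ Metric.ball (0 : E3) (rho N z) → gv N z x ≤ 0) ∧
    IntegrableOn (gv N z) (Metric.ball (0 : E3) (rho N z)) ∧
    ∫ x in Metric.ball (0 : E3) (rho N z), gv N z x =
      2 * Real.pi / 3 * (rho N z ^ 2 - nrm z ^ 2)

/-- **Piece NEWT.** -/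
def S_NEWT : Prop := S_GEO → C_NEWT

/-- Integrals over disjoint cubes. -/
def C_CSUM : Prop :=
  ∀ (N : ℕ) (z : V), Reg 10 N z → ∀ D : Finset V, D ⊆ ballF N →
    (∀ y ∈ D, 3 ≤ len (rv y - rv z)) →
    ∑ y ∈ D, ∫ x in cube y, max (gv N z x) 0 ≤
      2 * Real.pi / 3 * (rho N z ^ 2 - nrm z ^ 2)

/-- **Piece CSUM.** -/
def S_CSUM : Prop := S_GEO → C_NEWT → C_CSUM

/-- **Piece INT.** -/
def S_INT : Prop := S_GEO → S_SHELL → S_CUBE → C_CSUM → C_INT

end Pool.Agent.K1H2.UB
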