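import Pool.Agent.K1H2.UB.Stm
import Pool.Agent.K1H2.BI.Stm

/-!
# The link between the two descriptions of the process, and the final statement
-/

set_option autoImplicit false

open scoped ENNReal
open MeasureTheory ProbabilityTheory Filter
open Pool.Agent.K1H53.BI (V St children Ex Phi prob CondH top C_ABEL)
open Pool.Agent.K1H2.BI (State Inst Dir arrive kids at' agg Crit Drawn event Inv X)

namespace Pool.Agent.K1H2.UB

universe u

/-- The state of the other description when `T - 1` launches are made. -/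
def toSt (T : ℕ) (s : State) : St :=
  if s.t < T then ⟨s.A, s.L, T - 1 - s.t⟩ else ⟨s.A, [], 0⟩

/-- **Piece KCH.** The children of one particle. -/
def S_KCH : Prop :=
  ∀ (ν : PMF ℕ) (x : V) (A : Finset V) (L : List V) (m : ℕ) (f : St → ℝ≥0∞),
    ∫⁻ l, f ⟨(arrive x l (A, L)).1, (arrive x l (A, L)).2, m⟩ ∂(kids ν).toMeasure =
      Ex (top ν x ⟨A, L, m⟩) f

/-- Conclusion of the piece HRM. -/
def C_HRM : Prop :=
  ∀ (ν : PMF ℕ) (G : Finset V → Prop) (T : ℕ) (s : State), Inv s → s.t < T →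
    ∫⁻ i, Phi ν G (toSt T (event s i)) ∂(Pool.Agent.K1H2.BI.law ν) ≤ Phi ν G (toSt T s)

/-- **Piece HRM.** -/
def S_HRM : Prop := S_KCH → C_ABEL → C_HRM

/-- Conclusion of the piece LNK. -/
def C_LNK : Prop :=
  ∀ (Ω : Type u) [MeasurableSpace Ω] (P : Measure Ω) [IsProbabilityMeasure P]
    (ν : PMF ℕ) (ins : ℕ → Ω → Inst), Crit ν → Drawn P ν ins →
    ∀ (T : ℕ) (G : Finset V → Prop), 1 ≤ T → P {ω | G (agg (at' ins ω) T)} ≤ prob ν T G

/-- **Piece LNK.** -/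
def S_LNK : Prop :=
  C_HRM → C_ABEL → Pool.Agent.K1H2.BI.S_LYA.{u} → Pool.Agent.K1H2.BI.S_TRAJ →
    Pool.Agent.K1H2.BI.S_FRZ → Pool.Agent.K1H2.BI.S_MEAS.{u} →
    Pool.Agent.K1H2.BI.S_INNER.{u} → C_LNK.{u}

/-- The final statement. -/
def C_ASB : Prop :=
  ∀ (Ω : Type u) [MeasurableSpace Ω] (P : Measure Ω) [IsProbabilityMeasure P]
    (ν : PMF ℕ) (ins : ℕ → Ω → Inst), CondH ν → Drawn P ν ins →
    (∀ ε : ℝ, 0 < ε → ∀ k : ℕ, ∀ᶠ t : ℕ in atTop,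
      P.real {ω | Pool.Agent.K1H2.BI.rad t ^ ((1 : ℝ) / 2 + ε) ≤
        Pool.Agent.K1H2.BI.devI (agg (at' ins ω) t) t} ≤ 1 / (t : ℝ) ^ k) ∧
    ∀ᵐ ω ∂P, ∀ ε : ℝ, 0 < ε → ∀ᶠ t : ℕ in atTop,
      Pool.Agent.K1H2.BI.devI (agg (at' ins ω) t) t <
        Pool.Agent.K1H2.BI.rad t ^ ((1 : ℝ) / 2 + ε)

/-- **Piece ASB.** -/
def S_ASB : Prop := S_UB → C_LNK.{u} → C_ASB.{u}

end Pool.Agent.K1H2.UB
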