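import Pool.Agent.K1H2.UB.Stm3

/-!
# The sharper form: `C * sqrt r * log r`
-/

set_option autoImplicit false

open scoped ENNReal
open MeasureTheory ProbabilityTheory Filter
open Pool.Agent.K1H53.BI (V CondH prob rad devI S_INV)
open Pool.Agent.K1H2.BI (Inst at' agg Crit Drawn)

namespace Pool.Agent.K1H2.UB

universe u

/-- The inner deviation is at most `C * sqrt r * log r` up to a probability `T ^ (-k)`. -/
def S_UB2 : Prop :=
  ∀ ν : PMF ℕ, CondH ν → ∀ k : ℕ, ∃ (C : ℝ) (T₀ : ℕ), 0 < C ∧ ∀ T : ℕ, T₀ ≤ T →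
    prob ν T (fun A => C * Real.sqrt (rad T) * Real.log (rad T) ≤ devI T A) ≤
      ENNReal.ofReal (1 / (T : ℝ) ^ k)

/-- **Piece FIN2.** -/
def S_FIN2 : Prop := C_PT → S_INV → S_UB2

/-- The final statement. -/
def C_ASB2 : Prop :=
  ∀ (Ω : Type u) [MeasurableSpace Ω] (P : Measure Ω) [IsProbabilityMeasure P]
    (ν : PMF ℕ) (ins : ℕ → Ω → Inst), CondH ν → Drawn P ν ins →
    (∀ k : ℕ, ∃ C : ℝ, 0 < C ∧ ∀ᶠ t : ℕ in atTop,
      P.real {ω | C * Real.sqrt (Pool.Agent.K1H2.BI.rad t) * Real.log (Pool.Agent.K1H2.BI.rad t) ≤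
        Pool.Agent.K1H2.BI.devI (agg (at' ins ω) t) t} ≤ 1 / (t : ℝ) ^ k) ∧
    ∃ C : ℝ, 0 < C ∧ ∀ᵐ ω ∂P, ∀ᶠ t : ℕ in atTop,
      Pool.Agent.K1H2.BI.devI (agg (at' ins ω) t) t ≤
        C * Real.sqrt (Pool.Agent.K1H2.BI.rad t) * Real.log (Pool.Agent.K1H2.BI.rad t)

end Pool.Agent.K1H2.UB
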